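import Mathlib
import Pool.Agent.Helper31.Homog

set_option autoImplicit false

namespace Pool.Agent.Results.MP_87350b_lc.NotTheLimit

open FirstOrder FirstOrder.Language
open Pool.Agent.Helper31.Homog (UP cl los saturation realize_type WH wh_UP subC subC_elem
  subC_wh countable_cloC subset_cloC homogeneous_of_wh)

/-! ### Definitions -/

/-- The function symbols of the language of groups. -/
inductive GFn : ℕ → Type
  | one : GFn 0
  | inv : GFn 1
  | mul : GFn 2

/-- The language of groups: `1`, inverse and multiplication. -/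
abbrev Lg : FirstOrder.Language.{0, 0} := ⟨GFn, fun _ => Empty⟩

/-- The interpretation of the function symbols in a group. -/
def interp (G : Type) [Group G] : {n : ℕ} → GFn n → (Fin n → G) → G
  | _, GFn.one, _ => 1
  | _, GFn.inv, x => (x 0)⁻¹
  | _, GFn.mul, x => x 0 * x 1

/-- A group as a structure for the language of groups. -/
instance grp (G : Type) [Group G] : Lg.Structure G where
  funMap := fun f x => interp G f x
  RelMap := fun r _ => r.elim

/-- Elementary free groups: groups elementarily equivalent to a nonabelian free group. -/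
def ElemFree (A : Type) [Group A] : Prop :=
  ∃ (X : Type) (_ : Nontrivial X), A ≅[Lg] (FreeGroup X)

/-- The class of finitely generated elementary free groups. -/
def InK (A : Type) [Group A] : Prop := Group.FG A ∧ ElemFree A

/-- Same complete type in the language of groups. -/
def SameTp {n : ℕ} {A B : Type} [Group A] [Group B] (a : Fin n → A) (b : Fin n → B) : Prop :=
  ∀ φ : Lg.Formula (Fin n), φ.Realize a ↔ φ.Realize b

/-- Strong `e`-Fraisse classes of groups. -/
structure StrongEFraisse (C : ∀ (A : Type) [Group A], Prop) : Prop where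
  /-- the class is not empty -/
  nonempty : ∃ (A : Type) (_ : Group A), C A
  /-- its members are finitely generated -/
  fg : ∀ (A : Type) [Group A], C A → Group.FG A
  /-- there are countably many isomorphism types -/
  countable : ∃ (R : ℕ → Type) (_ : ∀ i, Group (R i)), ∀ (A : Type) [Group A], C A →
    ∃ i, Nonempty (A ≃* R i)
  /-- closure under isomorphism -/
  iso : ∀ (A B : Type) [Group A] [Group B], C A → Nonempty (A ≃* B) → C B
  /-- closure under finitely generated elementary substructures -/
  sub : ∀ (A B : Type) [Group A] [Group B], C A → Group.FG B → Nonempty (B ↪ₑ[Lg] A) → C B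
  /-- any two members elementarily embed into a common member -/
  joint : ∀ (A B : Type) [Group A] [Group B], C A → C B →
    ∃ (D : Type) (_ : Group D), C D ∧ Nonempty (A ↪ₑ[Lg] D) ∧ Nonempty (B ↪ₑ[Lg] D)
  /-- strong amalgamation over partial elementary maps of tuples -/
  amalgamation : ∀ (A₀ A₁ A₂ : Type) [Group A₀] [Group A₁] [Group A₂], C A₀ → C A₁ → C A₂ →
    ∀ (n : ℕ) (a : Fin n → A₀) (f₁ : Fin n → A₁) (f₂ : Fin n → A₂),
      SameTp a f₁ → SameTp a f₂ →
      ∃ (B : Type) (_ : Group B), C B ∧ ∃ (g₁ : A₁ ↪ₑ[Lg] B) (g₂ : A₂ ↪ₑ[Lg] B),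
        ∀ i, g₁ (f₁ i) = g₂ (f₂ i)

/-- `A` belongs to the elementary age of `M`. -/
def EAge (M : Type) [Group M] (A : Type) [Group A] : Prop :=
  Group.FG A ∧ Nonempty (A ↪ₑ[Lg] M)

/-- Homogeneous groups: finite tuples with the same type are conjugate by automorphisms. -/
def Homogeneous (M : Type) [Group M] : Prop :=
  ∀ (n : ℕ) (a b : Fin n → M), SameTp a b → ∃ σ : M ≃* M, ∀ i, σ (a i) = b i

/-- `H` is contained in `K` and is an elementary substructure of `K`. -/
def ElemLE {M : Type} [Group M] (H K : Subgroup M) : Prop :=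
  ∃ h : H ≤ K, ∀ (n : ℕ) (φ : Lg.Formula (Fin n)) (a : Fin n → H),
    φ.Realize (fun i => Subgroup.inclusion h (a i)) ↔ φ.Realize a

/-- `M` is the union of an elementary chain of members of `C` (chains over arbitrary nonempty
linear orders). -/
def ChainUnion (C : ∀ (A : Type) [Group A], Prop) (M : Type) [Group M] : Prop :=
  ∃ (ι : Type) (_ : LinearOrder ι) (_ : Nonempty ι) (N : ι → Subgroup M),
    (∀ i, C (N i)) ∧ (∀ i j, i ≤ j → ElemLE (N i) (N j)) ∧ ∀ x : M, ∃ i, x ∈ N i

/-- `M` is a strong `e`-Fraisse limit of `C`. -/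
def IsLimit (C : ∀ (A : Type) [Group A], Prop) (M : Type) [Group M] : Prop :=
  Countable M ∧ (∀ (A : Type) [Group A], EAge M A ↔ C A) ∧ Homogeneous M ∧ ChainUnion C M

/-! ### Terms and formulas -/

/-- Powers of terms. -/
def powT {α : Type} (t : Lg.Term α) : ℕ → Lg.Term α
  | 0 => Term.func GFn.one ![]
  | n + 1 => Term.func GFn.mul ![powT t n, t]

lemma realize_powT {α G : Type} [Group G] (t : Lg.Term α) (v : α → G) (n : ℕ) :
    (powT t n).realize v = (t.realize v) ^ n := by
  induction n with
  | zero => exact (pow_zero _).symm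
  | succ n ih =>
    rw [pow_succ, ← ih]
    rfl

/-- The formula saying that the element has an `n`-th root. -/
noncomputable def rootF (n : ℕ) : Lg.Formula Unit :=
  Formula.iExs Unit (Term.equal (powT (Term.var (Sum.inr ())) n) (Term.var (Sum.inl ())) :
    Lg.Formula (Unit ⊕ Unit))

lemma realize_rootF {G : Type} [Group G] (n : ℕ) (v : Unit → G) :
    (rootF n).Realize v ↔ ∃ y : G, y ^ n = v () := by
  rw [rootF, Formula.realize_iExs]
  constructor
  · rintro ⟨i, hi⟩
    rw [Formula.realize_equal, realize_powT] at hi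
    exact ⟨i (), hi⟩
  · rintro ⟨y, hy⟩
    refine ⟨fun _ => y, ?_⟩
    rw [Formula.realize_equal, realize_powT]
    exact hy

/-- An isomorphism of groups is an isomorphism of structures. -/
def toL {A B : Type} [Group A] [Group B] (e : A ≃* B) : A ≃[Lg] B where
  toEquiv := e.toEquiv
  map_fun' := by
    intro n f x
    cases f with
    | one => exact map_one e
    | inv => exact map_inv e _
    | mul => exact map_mul e _ _
  map_rel' := fun r _ => r.elim

/-- An isomorphism of structures is an isomorphism of groups. -/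
def ofL {A B : Type} [Group A] [Group B] (e : A ≃[Lg] B) : A ≃* B where
  toEquiv := e.toEquiv
  map_mul' := by
    intro x y
    have := e.map_fun GFn.mul ![x, y]
    exact this

/-- Elements of a finitely generated group are values of terms in the generators. -/
lemma exists_term {A : Type} [Group A] (h : Group.FG A) :
    ∃ (n : ℕ) (k : Fin n → A), ∀ x : A, ∃ t : Lg.Term (Fin n), t.realize k = x := by
  obtain ⟨S, hS⟩ := h.out
  obtain ⟨n, k, hk1, hk2⟩ := Pool.Agent.Helper31.Homog.fin_enum S.finite_toSet
  refine ⟨n, k, fun x => ?_⟩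
  have hx : x ∈ Subgroup.closure (S : Set A) := by rw [hS]; trivial
  induction hx using Subgroup.closure_induction with
  | mem x hx =>
    obtain ⟨i, hi⟩ := hk2 x hx
    exact ⟨Term.var i, hi⟩
  | one => exact ⟨Term.func GFn.one ![], rfl⟩
  | mul x y _ _ hx hy =>
    obtain ⟨t, ht⟩ := hx
    obtain ⟨s, hs⟩ := hy
    refine ⟨Term.func GFn.mul ![t, s], ?_⟩
    rw [← ht, ← hs]
    rfl
  | inv x _ hx =>
    obtain ⟨t, ht⟩ := hx
    refine ⟨Term.func GFn.inv ![t], ?_⟩
    rw [← ht]
    rfl

instance : Countable (Σ n, GFn n) := by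
  have : Function.Injective (fun z : Σ n, GFn n => match z with
    | ⟨_, GFn.one⟩ => 0
    | ⟨_, GFn.inv⟩ => 1
    | ⟨_, GFn.mul⟩ => (2 : ℕ)) := by
    rintro ⟨n, f⟩ ⟨m, g⟩ h
    cases f <;> cases g <;> simp_all
  exact this.countable

instance : Countable (Σ n, Lg.Functions n) := inferInstanceAs (Countable (Σ n, GFn n))

instance : Countable (Σ n, Lg.Relations n) :=
  inferInstanceAs (Countable (Σ _ : ℕ, Empty))

instance : Countable Lg.Symbols :=
  inferInstanceAs (Countable ((Σ n, Lg.Functions n) ⊕ (Σ n, Lg.Relations n)))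

lemma countable_of_fg {A : Type} [Group A] (h : Group.FG A) : Countable A := by
  obtain ⟨n, k, hk⟩ := exists_term h
  exact Function.Surjective.countable (f := fun t : Lg.Term (Fin n) => t.realize k) hk

/-- A tuple of the same type as a generating tuple gives an elementary embedding. -/
lemma embed_of_type {A : Type} [Group A] {M : Type} [Lg.Structure M] {n : ℕ} {k : Fin n → A}
    (hk : ∀ x : A, ∃ t : Lg.Term (Fin n), t.realize k = x) {g : Fin n → M}
    (hg : Pool.Agent.Helper31.Homog.SameType (L := Lg) k g) : Nonempty (A ↪ₑ[Lg] M) := by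
  choose t ht using hk
  refine ⟨⟨fun x => (t x).realize g, ?_⟩⟩
  intro m φ x
  have h1 := hg (BoundedFormula.subst φ (fun i => t (x i)))
  rw [Formula.Realize, Formula.Realize, BoundedFormula.realize_subst,
    BoundedFormula.realize_subst] at h1
  have h2 : (fun i => (t (x i)).realize k) = x := by
    funext i
    exact ht (x i)
  rw [h2] at h1
  exact h1.symm

/-! ### Roots in the free group -/

lemma root_free (p m : ℕ) :
    (∃ y : FreeGroup (Fin 2), y ^ p = (FreeGroup.of 0) ^ m) ↔ p ∣ m := by
  constructor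
  · rintro ⟨y, hy⟩
    let e : FreeGroup (Fin 2) →* Multiplicative ℤ :=
      FreeGroup.lift (fun _ => Multiplicative.ofAdd (1 : ℤ))
    have h1 := congrArg e hy
    rw [map_pow, map_pow, FreeGroup.lift_apply_of] at h1
    have h2 := congrArg Multiplicative.toAdd h1
    rw [toAdd_pow, toAdd_pow, toAdd_ofAdd] at h2
    simp only [nsmul_eq_mul, mul_one] at h2
    exact Int.natCast_dvd_natCast.1 ⟨_, h2.symm⟩
  · rintro ⟨q, rfl⟩
    exact ⟨(FreeGroup.of 0) ^ q, by rw [← pow_mul, mul_comm]⟩

/-- The `j`-th prime. -/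
noncomputable def pr (j : ℕ) : ℕ := Nat.nth Nat.Prime j

lemma pr_prime (j : ℕ) : (pr j).Prime := Nat.prime_nth_prime j

lemma pr_inj : Function.Injective pr := Nat.nth_injective Nat.infinite_setOfPred_prime

open Classical in
/-- The exponents. -/
noncomputable def mex (S : Set ℕ) (t : ℕ) : ℕ :=
  ∏ i ∈ (Finset.range t).filter (fun i => i ∈ S), pr i

lemma pr_dvd_mex (S : Set ℕ) (t j : ℕ) : pr j ∣ mex S t ↔ j < t ∧ j ∈ S := by
  classical
  rw [mex, (pr_prime j).prime.dvd_finsetProd_iff]
  constructor
  · rintro ⟨i, hi, hd⟩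
    have h1 : pr j = pr i := (Nat.prime_dvd_prime_iff_eq (pr_prime j) (pr_prime i)).1 hd
    rw [Finset.mem_filter, Finset.mem_range] at hi
    rw [pr_inj h1]
    exact hi
  · rintro ⟨h1, h2⟩
    exact ⟨j, Finset.mem_filter.2 ⟨Finset.mem_range.2 h1, h2⟩, dvd_rfl⟩

/-! ### Groups from structures -/

/-- The universal closure of an equation in three variables. -/
noncomputable def allEq (s t : Lg.Term (Empty ⊕ Fin 3)) : Lg.Sentence :=
  Formula.iAlls (Fin 3) (Term.equal s t)

lemma realize_allEq {M : Type} [Lg.Structure M] (s t : Lg.Term (Empty ⊕ Fin 3)) :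
    M ⊨ allEq s t ↔ ∀ x : Fin 3 → M,
      s.realize (Sum.elim (Empty.elim : Empty → M) x) =
        t.realize (Sum.elim (Empty.elim : Empty → M) x) := by
  have h : (M ⊨ allEq s t) ↔ Formula.Realize (M := M) (allEq s t) default := Iff.rfl
  have e : (default : Empty → M) = Empty.elim := Subsingleton.elim _ _
  rw [h, e, allEq, Formula.realize_iAlls]
  constructor
  · intro h x
    have := h x
    rw [Formula.realize_equal] at this
    exact this
  · intro h x
    rw [Formula.realize_equal]
    exact h x

/-- Variables. -/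
abbrev X (i : Fin 3) : Lg.Term (Empty ⊕ Fin 3) := Term.var (Sum.inr i)

/-- Products of terms. -/
abbrev mulT {α : Type} (s t : Lg.Term α) : Lg.Term α := Term.func GFn.mul ![s, t]

/-- Inverses of terms. -/
abbrev invT {α : Type} (s : Lg.Term α) : Lg.Term α := Term.func GFn.inv ![s]

/-- The term `1`. -/
abbrev oneT {α : Type} : Lg.Term α := Term.func GFn.one ![]

lemma transfer {M : Type} [Lg.Structure M] (h : M ≅[Lg] (FreeGroup (Fin 2)))
    (s t : Lg.Term (Empty ⊕ Fin 3))
    (hst : ∀ x : Fin 3 → FreeGroup (Fin 2),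
      s.realize (Sum.elim (Empty.elim : Empty → FreeGroup (Fin 2)) x) =
        t.realize (Sum.elim (Empty.elim : Empty → FreeGroup (Fin 2)) x)) (x : Fin 3 → M) :
    s.realize (Sum.elim (Empty.elim : Empty → M) x) =
      t.realize (Sum.elim (Empty.elim : Empty → M) x) := by
  have h1 : (FreeGroup (Fin 2)) ⊨ allEq s t := (realize_allEq s t).2 hst
  exact (realize_allEq s t).1 ((elementarilyEquivalent_iff.1 h (allEq s t)).2 h1) x

/-- Structures elementarily equivalent to a free group are groups. -/
lemma exists_group (M : Type) [st : Lg.Structure M] (h : M ≅[Lg] (FreeGroup (Fin 2))) :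
    ∃ g : Group M, @grp M g = st := by
  let mul : M → M → M := fun a b => Structure.funMap (L := Lg) (M := M) GFn.mul ![a, b]
  let inv : M → M := fun a => Structure.funMap (L := Lg) (M := M) GFn.inv ![a]
  let one : M := Structure.funMap (L := Lg) (M := M) GFn.one ![]
  have e2 : ∀ {α : Type} (s t : Lg.Term α) (v : α → M),
      (mulT s t).realize v = mul (s.realize v) (t.realize v) := by
    intro α s t v
    show Structure.funMap _ _ = Structure.funMap _ _
    congr 1
    funext i
    fin_cases i <;> rfl
  have e1 : ∀ {α : Type} (s : Lg.Term α) (v : α → M), (invT s).realize v = inv (s.realize v) := by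
    intro α s v
    show Structure.funMap _ _ = Structure.funMap _ _
    congr 1
    funext i
    fin_cases i <;> rfl
  have e0 : ∀ {α : Type} (v : α → M), (oneT : Lg.Term α).realize v = one := by
    intro α v
    show Structure.funMap _ _ = Structure.funMap _ _
    congr 1
    exact Subsingleton.elim _ _
  have assoc : ∀ a b c, mul (mul a b) c = mul a (mul b c) := by
    intro a b c
    have := transfer h (mulT (mulT (X 0) (X 1)) (X 2)) (mulT (X 0) (mulT (X 1) (X 2)))
      (fun x => mul_assoc (x 0) (x 1) (x 2)) ![a, b, c]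
    rw [e2, e2, e2, e2] at this
    exact this
  have one_mul' : ∀ a, mul one a = a := by
    intro a
    have := transfer h (mulT oneT (X 0)) (X 0) (fun x => one_mul (x 0)) ![a, a, a]
    rw [e2, e0] at this
    exact this
  have inv_mul' : ∀ a, mul (inv a) a = one := by
    intro a
    have := transfer h (mulT (invT (X 0)) (X 0)) oneT (fun x => inv_mul_cancel (x 0)) ![a, a, a]
    rw [e2, e1, e0] at this
    exact this
  let I1 : Mul M := ⟨mul⟩
  let I2 : Inv M := ⟨inv⟩
  let I3 : One M := ⟨one⟩
  let g : Group M := Group.ofLeftAxioms assoc one_mul' inv_mul'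
  refine ⟨g, ?_⟩
  refine FirstOrder.Language.Structure.ext ?_ ?_
  · funext n f x
    cases f with
    | one =>
      show one = _
      show Structure.funMap _ _ = Structure.funMap _ _
      congr 1
      exact Subsingleton.elim _ _
    | inv =>
      show inv (x 0) = _
      show Structure.funMap _ _ = Structure.funMap _ _
      congr 1
      funext i
      fin_cases i
      rfl
    | mul =>
      show mul (x 0) (x 1) = _
      show Structure.funMap _ _ = Structure.funMap _ _
      congr 1
      funext i
      fin_cases i <;> rfl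
  · funext n r
    exact r.elim

/-! ### The structure -/

lemma realize_sentence_elim {M : Type} [Lg.Structure M] (φ : Lg.Sentence) :
    Formula.Realize (M := M) φ (Empty.elim : Empty → M) ↔ M ⊨ φ := by
  have e1 : (Empty.elim : Empty → M) = default := Subsingleton.elim _ _
  rw [e1]
  exact Iff.rfl

/-- A countable homogeneous model of the theory of free groups which realises a prescribed root
pattern and into which prescribed finitely generated models embed elementarily. -/
theorem exists_structure (S : Set ℕ) (ι : Type) [Countable ι] (R : ι → Type)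
    [∀ i, Group (R i)] (hR : ∀ i, Group.FG (R i) ∧ (R i ≅[Lg] (FreeGroup (Fin 2)))) :
    ∃ (G : Type) (_ : Lg.Structure G), Countable G ∧ (G ≅[Lg] (FreeGroup (Fin 2))) ∧
      Pool.Agent.Helper31.Homog.Homogeneous Lg G ∧
      (∃ z : G, ∀ j, (rootF (pr j)).Realize (fun _ : Unit => z) ↔ j ∈ S) ∧
      ∀ i, Nonempty (R i ↪ₑ[Lg] G) := by
  classical
  let U : Type := UP (FreeGroup (Fin 2))
  have hU : U ≅[Lg] (FreeGroup (Fin 2)) := by
    rw [elementarilyEquivalent_iff]
    intro φ
    have h1 := Ultraproduct.sentence_realize (L := Lg) (u := Filter.hyperfilter ℕ)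
      (M := fun _ => FreeGroup (Fin 2)) φ
    rw [Filter.eventually_const] at h1
    exact h1
  -- the root pattern
  let z0 : U := cl (FreeGroup (Fin 2)) (fun t => (FreeGroup.of 0) ^ (mex S t))
  have hz0 : ∀ j, (rootF (pr j)).Realize (fun _ : Unit => z0) ↔ j ∈ S := by
    intro j
    have h1 := los (rootF (pr j)) (fun (_ : Unit) t =>
      ((FreeGroup.of 0 : FreeGroup (Fin 2)) ^ (mex S t)))
    have h2 : ∀ᶠ t in ((Filter.hyperfilter ℕ : Ultrafilter ℕ) : Filter ℕ), j + 1 ≤ t := by
      have : ∀ᶠ t in (Filter.cofinite : Filter ℕ), j + 1 ≤ t := by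
        rw [Nat.cofinite_eq_atTop]
        exact Filter.eventually_ge_atTop (j + 1)
      exact this.filter_mono Filter.hyperfilter_le_cofinite
    refine h1.trans ?_
    have h3 : (∀ᶠ t in ((Filter.hyperfilter ℕ : Ultrafilter ℕ) : Filter ℕ),
        (rootF (pr j)).Realize (fun _ : Unit =>
          ((FreeGroup.of 0 : FreeGroup (Fin 2)) ^ (mex S t)))) ↔
        ∀ᶠ _ in ((Filter.hyperfilter ℕ : Ultrafilter ℕ) : Filter ℕ), j ∈ S := by
      refine Filter.eventually_congr ?_
      filter_upwards [h2] with t ht
      rw [realize_rootF, root_free, pr_dvd_mex]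
      exact ⟨fun h => h.2, fun h => ⟨by omega, h⟩⟩
    rw [h3, Filter.eventually_const]
  -- the types of the generating tuples
  choose n k hk using fun i => exists_term (hR i).1
  have hd : ∀ i, ∃ d : Fin (n i) → U, Pool.Agent.Helper31.Homog.SameType (L := Lg) (k i) d := by
    intro i
    have h1 : Pool.Agent.Helper31.Homog.SameType (L := Lg) (Empty.elim : Empty → R i)
        (Empty.elim : Empty → U) := by
      intro φ
      have h2 := elementarilyEquivalent_iff.1 ((hR i).2.trans hU.symm) φ
      rw [← realize_sentence_elim, ← realize_sentence_elim] at h2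
      exact h2
    obtain ⟨d, hd⟩ := realize_type (L := Lg) _ (k i) _ h1
    exact ⟨d, hd.comp Sum.inr⟩
  choose d hd using hd
  let A : Set U := {z0} ∪ ⋃ i, Set.range (d i)
  have hA : A.Countable :=
    (Set.countable_singleton z0).union (Set.countable_iUnion fun i => Set.countable_range _)
  have hN : WH Lg U := wh_UP _
  have hel : (subC Lg A).IsElementary := subC_elem A
  let E : Lg.ElementarySubstructure U := ⟨subC Lg A, hel⟩
  have hE : ∀ {α : Type} (φ : Lg.Formula α) (x : α → subC Lg A),
      φ.Realize (fun i => ((x i : subC Lg A) : U)) ↔ φ.Realize x := by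
    intro α φ x
    exact E.subtype.map_formula φ x
  have hcount : Countable (subC Lg A) := (countable_cloC (L := Lg) hA).to_subtype
  refine ⟨subC Lg A, inferInstance, hcount, ?_, ?_, ?_, ?_⟩
  · exact E.elementarilyEquivalent.trans hU
  · exact homogeneous_of_wh (subC_wh hN A)
  · refine ⟨⟨z0, subset_cloC A (Or.inl rfl)⟩, fun j => ?_⟩
    rw [← hz0 j, ← hE]
  · intro i
    refine embed_of_type (hk i) (g := fun e => ⟨d i e, subset_cloC A (Or.inr
      (Set.mem_iUnion.2 ⟨i, ⟨e, rfl⟩⟩))⟩) ?_
    intro φ
    rw [← hE]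
    exact hd i φ

/-! ### Elementary chains -/

lemma InK.iso {A B : Type} [Group A] [Group B] (h : InK A) (e : A ≃* B) : InK B := by
  refine ⟨?_, ?_⟩
  · have := h.1
    exact Group.fg_of_surjective (f := e.toMonoidHom) e.surjective
  · have h1 : A ≅[Lg] B := (toL e).toElementaryEmbedding.elementarilyEquivalent
    obtain ⟨X, hX, h2⟩ := h.2
    exact ⟨X, hX, h1.symm.trans h2⟩

lemma inK_free : InK (FreeGroup (Fin 2)) :=
  ⟨inferInstance, Fin 2, inferInstance, rfl⟩

/-- By joint embedding, all members of the class have the theory of the free group of rank two. -/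
lemma equiv_free (hK : StrongEFraisse InK) {A : Type} [Group A] (hA : InK A) :
    A ≅[Lg] (FreeGroup (Fin 2)) := by
  obtain ⟨D, gD, -, ⟨f⟩, ⟨f'⟩⟩ := hK.joint A (FreeGroup (Fin 2)) hA inK_free
  exact f.elementarilyEquivalent.trans f'.elementarilyEquivalent.symm

/-- In the union of an elementary chain, the root pattern of an element is that of an element of
some member. -/
lemma chain_roots {C : ∀ (A : Type) [Group A], Prop} {M : Type} [Group M]
    (h : ChainUnion C M) (m : M) : ∃ (H : Subgroup M) (_ : C H) (x : H),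
      ∀ p : ℕ, (∃ y : M, y ^ p = m) ↔ ∃ y : H, y ^ p = x := by
  obtain ⟨ι, _, _, N, hN1, hN2, hN3⟩ := h
  obtain ⟨i, hi⟩ := hN3 m
  refine ⟨N i, hN1 i, ⟨m, hi⟩, fun p => ?_⟩
  constructor
  · rintro ⟨y, hy⟩
    obtain ⟨j, hj⟩ := hN3 y
    rcases le_total j i with hij | hij
    · obtain ⟨h1, -⟩ := hN2 j i hij
      exact ⟨⟨y, h1 hj⟩, Subtype.ext hy⟩
    · obtain ⟨h1, h2⟩ := hN2 i j hij
      have h3 := h2 1 ((rootF p).relabel (fun _ => 0)) (fun _ => ⟨m, hi⟩)
      rw [Formula.realize_relabel, Formula.realize_relabel, realize_rootF, realize_rootF] at h3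
      exact h3.1 ⟨⟨y, hj⟩, Subtype.ext hy⟩
  · rintro ⟨y, hy⟩
    exact ⟨y, congrArg Subtype.val hy⟩

/-- The main theorem. Assume that the class of finitely generated elementary free groups is a
strong `e`-Fraisse class. Then there is a countable homogeneous elementary free group `G` with
elementary age this class, which is not the union of an elementary chain of members of the class,
and which is not isomorphic to any strong `e`-Fraisse limit of the class. -/
theorem result (hK : StrongEFraisse InK) :
    ∃ (G : Type) (_ : Group G), Countable G ∧ ElemFree G ∧ Homogeneous G ∧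
      (∀ (A : Type) [Group A], EAge G A ↔ InK A) ∧
      ¬ ChainUnion InK G ∧
      ∀ (M : Type) [Group M], IsLimit InK M → IsEmpty (G ≃* M) := by
  classical
  obtain ⟨R, gR, hRall⟩ := hK.countable
  let ι : Type := {i : ℕ // InK (R i)}
  have hc : ∀ i : ι, Countable (R i.1) := fun i => countable_of_fg i.2.1
  -- a root pattern different from all those in the members of the class
  let Y : Type := Σ i : ι, R i.1
  have : Countable Y := inferInstance
  obtain ⟨A0, gA0, hA0⟩ := hK.nonempty
  obtain ⟨i0, ⟨e0⟩⟩ := hRall A0 hA0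
  have hne : Nonempty Y := ⟨⟨⟨i0, hA0.iso e0⟩, 1⟩⟩
  obtain ⟨en, hen⟩ := exists_surjective_nat Y
  let pat : Y → Set ℕ := fun y => {j | ∃ x : R y.1.1, x ^ (pr j) = y.2}
  obtain ⟨S, hS⟩ : ∃ S : Set ℕ, ∀ y, pat y ≠ S := by
    have h1 := Function.cantor_surjective (fun n => pat (en n))
    simp only [Function.Surjective, not_forall, not_exists] at h1
    obtain ⟨S, hS⟩ := h1
    refine ⟨S, fun y => ?_⟩
    obtain ⟨n, hn⟩ := hen y
    rw [← hn]
    exact hS n
  obtain ⟨G, st, hcG, hEq, hHom, ⟨z, hz⟩, hemb⟩ :=
    exists_structure S ι (fun i => R i.1) (fun i => ⟨i.2.1, equiv_free hK i.2⟩)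
  obtain ⟨g, hg⟩ := exists_group G hEq
  subst hg
  have hzr : ∀ j, (∃ y : G, y ^ (pr j) = z) ↔ j ∈ S := by
    intro j
    rw [← hz j, realize_rootF]
  -- no union of an elementary chain contains such an element
  have key : ∀ (M : Type) [Group M], ChainUnion InK M → ∀ m : M,
      ¬ ∀ j, (∃ y : M, y ^ (pr j) = m) ↔ j ∈ S := by
    intro M _ hM m hm
    obtain ⟨H, hH, x, hx⟩ := chain_roots hM m
    obtain ⟨i, ⟨e⟩⟩ := hRall H hH
    refine hS ⟨⟨i, hH.iso e⟩, e x⟩ ?_
    ext j
    rw [← hm j, hx (pr j)]
    constructor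
    · rintro ⟨w, hw⟩
      exact ⟨e.symm w, by rw [← map_pow, hw, MulEquiv.symm_apply_apply]⟩
    · rintro ⟨w, hw⟩
      exact ⟨e w, by rw [← map_pow, hw]⟩
  refine ⟨G, g, hcG, ⟨Fin 2, inferInstance, hEq⟩, ?_, ?_, fun h => key G h z hzr, ?_⟩
  · intro n a b hab
    obtain ⟨σ, hσ⟩ := hHom n a b hab
    exact ⟨ofL σ, hσ⟩
  · intro A _
    constructor
    · rintro ⟨h1, ⟨f⟩⟩
      exact ⟨h1, Fin 2, inferInstance, f.elementarilyEquivalent.trans hEq⟩
    · intro hA
      refine ⟨hA.1, ?_⟩
      obtain ⟨i, ⟨e⟩⟩ := hRall A hA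
      obtain ⟨f⟩ := hemb ⟨i, hA.iso e⟩
      exact ⟨f.comp (toL e).toElementaryEmbedding⟩
  · intro M _ hM
    refine ⟨fun e => key M hM.2.2.2 (e z) (fun j => ?_)⟩
    rw [← hzr j]
    constructor
    · rintro ⟨w, hw⟩
      exact ⟨e.symm w, by rw [← map_pow, hw, MulEquiv.symm_apply_apply]⟩
    · rintro ⟨w, hw⟩
      exact ⟨e w, by rw [← map_pow, hw]⟩

end Pool.Agent.Results.MP_87350b_lc.NotTheLimit
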